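import Pool.Agent.W703.BPBg

/-!
# The Bishop-Phelps-Bollobas property does not pass to one-complemented subspaces of the range

Let `YB` be the `ℓ_∞`-sum of the two-dimensional blocks of `Pool/Agent/W703/BPBc.lean`, for which
the pair (`ℓ_1` of dimension two, `YB`) fails the property, inside `ℓ_∞(ℕ, 𝕜 ^ 3)`. The space `Y`
of the continuous functions `f` from the one-point compactification of `ℕ` to `ℓ_∞(ℕ, 𝕜 ^ 3)` with
`f ∞ ∈ YB` has norming coordinate functionals which can be changed one at a time, so the pair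
`(X, Y)` has the property for every finite-dimensional `X`. The constant functions form a subspace
isometric to `YB`, the range of the norm-one projection `f ↦ f ∞`.
-/

set_option autoImplicit false

open Set Filter Topology
open scoped ENNReal

namespace Pool.Agent.Results.MP_7aa09c_an.BPBpRange

open Pool.Agent.W703.OC

universe u

section fun_bpb

variable {𝕜 : Type*} [RCLike 𝕜] {X : Type*} [NormedAddCommGroup X] [NormedSpace 𝕜 X]

/-- The Bishop-Phelps-Bollobas theorem for functionals in finite dimension, by compactness. -/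
theorem bpb_fun [FiniteDimensional 𝕜 X] {ε : ℝ} (hε : 0 < ε) :
    ∃ η : ℝ, 0 < η ∧ ∀ (g : X →L[𝕜] 𝕜) (x : X), ‖g‖ ≤ 1 → ‖x‖ = 1 → 1 - η < ‖g x‖ →
      ∃ (h : X →L[𝕜] 𝕜) (u : X), ‖h‖ ≤ 1 ∧ ‖u‖ = 1 ∧ ‖h u‖ = 1 ∧ ‖x - u‖ < ε ∧ ‖h - g‖ < ε := by
  by_contra hcon
  push Not at hcon
  have h1 : ∀ n : ℕ, ∃ (g : X →L[𝕜] 𝕜) (x : X), ‖g‖ ≤ 1 ∧ ‖x‖ = 1 ∧
      1 - 1 / ((n : ℝ) + 1) < ‖g x‖ ∧ ∀ (h : X →L[𝕜] 𝕜) (u : X), ‖h‖ ≤ 1 → ‖u‖ = 1 →
        ‖h u‖ = 1 → ‖x - u‖ < ε → ε ≤ ‖h - g‖ := fun n => hcon _ (by positivity)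
  choose g x hg hx hgx hno using h1
  have : ProperSpace X := FiniteDimensional.proper_rclike 𝕜 X
  have : ProperSpace (X →L[𝕜] 𝕜) := FiniteDimensional.proper_rclike 𝕜 _
  obtain ⟨⟨B, u⟩, hBu, φ, hφ, hlim⟩ :=
    ((isCompact_closedBall (0 : X →L[𝕜] 𝕜) 1).prod
      (isCompact_sphere (0 : X) 1)).tendsto_subseq (x := fun n => (g n, x n)) (fun n => by
        refine ⟨?_, ?_⟩
        · rw [mem_closedBall_zero_iff]; exact hg n
        · rw [mem_sphere_zero_iff_norm]; exact hx n)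
  have hB : ‖B‖ ≤ 1 := by
    have := hBu.1
    rwa [mem_closedBall_zero_iff] at this
  have hu : ‖u‖ = 1 := by
    have := hBu.2
    rwa [mem_sphere_zero_iff_norm] at this
  have h1 : Tendsto (fun n => g (φ n)) atTop (𝓝 B) := (continuous_fst.tendsto _).comp hlim
  have h2 : Tendsto (fun n => x (φ n)) atTop (𝓝 u) := (continuous_snd.tendsto _).comp hlim
  have h3 : ‖B u‖ = 1 := by
    apply le_antisymm
    · have := B.le_opNorm u
      rw [hu, mul_one] at this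
      exact this.trans hB
    · have e1 : Tendsto (fun n => ‖g (φ n) (x (φ n))‖) atTop (𝓝 ‖B u‖) :=
        (((isBoundedBilinearMap_apply (𝕜 := 𝕜) (E := X) (F := 𝕜)).continuous.tendsto
          (B, u)).comp (h1.prodMk_nhds h2)).norm
      have e2 : Tendsto (fun n : ℕ => 1 - 1 / (((φ n : ℕ) : ℝ) + 1)) atTop (𝓝 (1 - 0)) :=
        tendsto_const_nhds.sub (tendsto_one_div_add_atTop_nhds_zero_nat.comp hφ.tendsto_atTop)
      rw [sub_zero] at e2
      exact le_of_tendsto_of_tendsto' e2 e1 fun n => (hgx (φ n)).le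
  have e1 := Metric.tendsto_nhds.1 h1 ε hε
  have e2 := Metric.tendsto_nhds.1 h2 ε hε
  obtain ⟨n, hn1, hn2⟩ := (e1.and e2).exists
  rw [dist_eq_norm] at hn1 hn2
  rw [norm_sub_rev] at hn1
  exact absurd (hno (φ n) B u hB hu h3 hn2) (not_le.2 hn1)

end fun_bpb

section abs

variable {𝕜 : Type*} [RCLike 𝕜] {Y : Type*} [NormedAddCommGroup Y] [NormedSpace 𝕜 Y] {ι : Type*}

/-- Norming coordinate functionals with dual unit vectors. -/
structure IsCoord (cf : ι → Y →L[𝕜] 𝕜) (uv : ι → Y) : Prop where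
  le_of : ∀ (w : Y) (c : ℝ), 0 ≤ c → (∀ j, ‖cf j w‖ ≤ c) → ‖w‖ ≤ c
  cf_le : ∀ j w, ‖cf j w‖ ≤ ‖w‖
  self : ∀ j, cf j (uv j) = 1
  ne : ∀ j j', j' ≠ j → cf j' (uv j) = 0

/-- The pair `(X, Y)` has the property for every finite-dimensional `X`. -/
theorem bpbp_of_isCoord {cf : ι → Y →L[𝕜] 𝕜} {uv : ι → Y} (hY : IsCoord cf uv)
    (X : Type*) [NormedAddCommGroup X] [NormedSpace 𝕜 X] [FiniteDimensional 𝕜 X] :
    BPBp 𝕜 X Y := by
  intro ε hε _
  obtain ⟨η, hη, H⟩ := bpb_fun (𝕜 := 𝕜) (X := X) hε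
  refine ⟨min η 1, lt_min hη one_pos, fun T x hT hx hTx => ?_⟩
  obtain ⟨j, hj⟩ : ∃ j, 1 - min η 1 < ‖cf j (T x)‖ := by
    by_contra hno
    push Not at hno
    exact absurd (hY.le_of (T x) _ (by linarith [min_le_right η 1]) hno) (not_le.2 hTx)
  have hcT : ∀ j y, ‖cf j (T y)‖ ≤ ‖y‖ := fun j y => by
    have h2 := T.le_opNorm y
    rw [hT, one_mul] at h2
    exact (hY.cf_le j (T y)).trans h2
  obtain ⟨h, v, hh, hv, hhv, hxv, hhg⟩ := H ((cf j).comp T) x
    (ContinuousLinearMap.opNorm_le_bound _ zero_le_one fun y => by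
      rw [one_mul]; exact hcT j y) hx
    (lt_of_le_of_lt (by linarith [min_le_left η 1]) hj)
  set D : X →L[𝕜] 𝕜 := h - (cf j).comp T with hD
  set S : X →L[𝕜] Y := T + D.smulRight (uv j) with hS
  have hSself : ∀ y, cf j (S y) = h y := by
    intro y
    change cf j (T y + D y • (uv j)) = h y
    rw [map_add, map_smul, hY.self, smul_eq_mul, mul_one]
    change cf j (T y) + (h y - cf j (T y)) = h y
    ring
  have hSne : ∀ j' y, j' ≠ j → cf j' (S y) = cf j' (T y) := by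
    intro j' y hne
    change cf j' (T y + D y • (uv j)) = _
    rw [map_add, map_smul, hY.ne j j' hne, smul_zero, add_zero]
  have hS1 : ‖S‖ ≤ 1 := by
    refine ContinuousLinearMap.opNorm_le_bound _ zero_le_one fun y => ?_
    rw [one_mul]
    refine hY.le_of _ _ (norm_nonneg _) fun j' => ?_
    by_cases hc : j' = j
    · subst hc
      rw [hSself]
      exact (h.le_opNorm y).trans (by nlinarith [norm_nonneg y])
    · rw [hSne j' y hc]; exact hcT j' y
  have hSv : ‖S v‖ = 1 := by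
    apply le_antisymm
    · have := S.le_opNorm v
      rw [hv, mul_one] at this
      exact this.trans hS1
    · have := hY.cf_le j (S v)
      rwa [hSself, hhv] at this
  refine ⟨S, v, le_antisymm hS1 ?_, hv, hSv, hxv, ?_⟩
  · have := S.le_opNorm v
    rwa [hv, mul_one, hSv] at this
  · have h1 : S - T = D.smulRight (uv j) := by rw [hS]; abel
    rw [h1]
    refine lt_of_le_of_lt ?_ hhg
    refine ContinuousLinearMap.opNorm_le_bound _ (norm_nonneg _) fun y => ?_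
    refine hY.le_of _ _ (by positivity) fun j' => ?_
    change ‖cf j' (D y • (uv j))‖ ≤ _
    rw [map_smul, smul_eq_mul]
    by_cases hc : j' = j
    · subst hc
      rw [hY.self, mul_one]
      exact D.le_opNorm y
    · rw [hY.ne j j' hc, mul_zero, norm_zero]
      positivity

end abs

section spaceL

variable (𝕜 : Type u) [RCLike 𝕜]

/-- `ℓ_∞(ℕ, 𝕜 ^ 3)`. -/
def L : Type u := LL 𝕜

noncomputable instance : NormedAddCommGroup (L 𝕜) := inferInstanceAs (NormedAddCommGroup (LL 𝕜))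
noncomputable instance : NormedSpace 𝕜 (L 𝕜) := inferInstanceAs (NormedSpace 𝕜 (LL 𝕜))
instance : CompleteSpace (L 𝕜) := inferInstanceAs (CompleteSpace (LL 𝕜))

variable {𝕜}

/-- The blocks. -/
def bl (k : ℕ) (w : L 𝕜) : Fin 3 → 𝕜 := (show LL 𝕜 from w) k

theorem bl_add (k : ℕ) (v w : L 𝕜) : bl k (v + w) = bl k v + bl k w := rfl
theorem bl_smul (k : ℕ) (c : 𝕜) (w : L 𝕜) : bl k (c • w) = c • bl k w := rfl
theorem bl_zero (k : ℕ) : bl k (0 : L 𝕜) = 0 := rfl

theorem bl_le (k : ℕ) (w : L 𝕜) : ‖bl k w‖ ≤ ‖w‖ :=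
  lp.norm_apply_le_norm (by simp) (show LL 𝕜 from w) k

theorem le_of_bl (w : L 𝕜) {c : ℝ} (hc : 0 ≤ c) (h : ∀ k, ‖bl k w‖ ≤ c) : ‖w‖ ≤ c :=
  lp.norm_le_of_forall_le (f := (show LL 𝕜 from w)) hc h

/-- Vectors with one nonzero block. -/
noncomputable def sg (k : ℕ) (v : Fin 3 → 𝕜) : L 𝕜 := (lp.single ∞ k v : LL 𝕜)

theorem bl_sg_self (k : ℕ) (v : Fin 3 → 𝕜) : bl k (sg k v) = v := lp.single_apply_self ∞ _ _

theorem bl_sg_ne {k j : ℕ} (v : Fin 3 → 𝕜) (h : j ≠ k) : bl j (sg k v) = 0 :=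
  lp.single_apply_ne ∞ _ _ h

theorem sg_add (k : ℕ) (v w : Fin 3 → 𝕜) : sg k (v + w) = sg k v + sg k w :=
  map_add (lp.singleContinuousLinearMap 𝕜 (fun _ : ℕ => (Fin 3 → 𝕜)) ∞ k) v w

theorem sg_smul (k : ℕ) (c : 𝕜) (w : Fin 3 → 𝕜) : sg k (c • w) = c • sg k w :=
  map_smul (lp.singleContinuousLinearMap 𝕜 (fun _ : ℕ => (Fin 3 → 𝕜)) ∞ k) c w

theorem norm_sg_le (k : ℕ) (v : Fin 3 → 𝕜) : ‖sg k v‖ ≤ ‖v‖ := by
  refine le_of_bl _ (norm_nonneg _) fun j => ?_
  by_cases h : j = k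
  · subst h; rw [bl_sg_self]
  · rw [bl_sg_ne v h, norm_zero]; positivity

variable (𝕜)

/-- The `ℓ_∞`-sum of the blocks `VV 𝕜 (sk k)`. -/
def YS : Submodule 𝕜 (L 𝕜) where
  carrier := {w | ∀ k, bl k w ∈ VV 𝕜 (sk k)}
  add_mem' := fun ha hb k => (VV 𝕜 (sk k)).add_mem (ha k) (hb k)
  zero_mem' := fun k => (VV 𝕜 (sk k)).zero_mem
  smul_mem' := fun c _ ha k => (VV 𝕜 (sk k)).smul_mem c (ha k)

variable {𝕜}

theorem isClosed_YS : IsClosed (YS 𝕜 : Set (L 𝕜)) := isClosed_YB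

end spaceL

section spaceC

variable (𝕜 : Type u) [RCLike 𝕜]

/-- Continuous functions from the one-point compactification of `ℕ` to `ℓ_∞(ℕ, 𝕜 ^ 3)`. -/
def CL : Type u := C(OnePoint ℕ, L 𝕜)

noncomputable instance : NormedAddCommGroup (CL 𝕜) :=
  inferInstanceAs (NormedAddCommGroup C(OnePoint ℕ, L 𝕜))
noncomputable instance : NormedSpace 𝕜 (CL 𝕜) := inferInstanceAs (NormedSpace 𝕜 C(OnePoint ℕ, L 𝕜))
instance : CompleteSpace (CL 𝕜) := inferInstanceAs (CompleteSpace C(OnePoint ℕ, L 𝕜))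

variable {𝕜}

/-- Evaluation. -/
noncomputable def ev (x : OnePoint ℕ) (f : CL 𝕜) : L 𝕜 := (show C(OnePoint ℕ, L 𝕜) from f) x

theorem ev_add (x : OnePoint ℕ) (f g : CL 𝕜) : ev x (f + g) = ev x f + ev x g := rfl
theorem ev_smul (x : OnePoint ℕ) (c : 𝕜) (f : CL 𝕜) : ev x (c • f) = c • ev x f := rfl
theorem ev_zero (x : OnePoint ℕ) : ev x (0 : CL 𝕜) = 0 := rfl

theorem ev_le (x : OnePoint ℕ) (f : CL 𝕜) : ‖ev x f‖ ≤ ‖f‖ :=
  ContinuousMap.norm_coe_le_norm (show C(OnePoint ℕ, L 𝕜) from f) x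

theorem le_of_ev (f : CL 𝕜) {c : ℝ} (hc : 0 ≤ c) (h : ∀ x, ‖ev x f‖ ≤ c) : ‖f‖ ≤ c :=
  (ContinuousMap.norm_le (show C(OnePoint ℕ, L 𝕜) from f) hc).2 h

theorem le_of_ev_nat (f : CL 𝕜) {c : ℝ} (hc : 0 ≤ c) (h : ∀ m : ℕ, ‖ev m f‖ ≤ c) : ‖f‖ ≤ c := by
  refine le_of_ev f hc fun x => ?_
  have hcl : IsClosed {x : OnePoint ℕ | ‖ev x f‖ ≤ c} :=
    isClosed_le (map_continuous (show C(OnePoint ℕ, L 𝕜) from f)).norm continuous_const
  have hdense : DenseRange ((↑) : ℕ → OnePoint ℕ) := OnePoint.denseRange_coe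
  exact hdense.induction_on x hcl h

theorem ext_ev {f g : CL 𝕜} (h : ∀ x, ev x f = ev x g) : f = g := ContinuousMap.ext h

/-- Evaluation as a linear map. -/
noncomputable def evL (x : OnePoint ℕ) : CL 𝕜 →L[𝕜] L 𝕜 :=
  LinearMap.mkContinuous { toFun := ev x, map_add' := ev_add x, map_smul' := ev_smul x } 1
    (fun f => by rw [one_mul]; exact ev_le x f)

/-- The function with a single nonzero value. -/
noncomputable def sgl (m : ℕ) (v : L 𝕜) : CL 𝕜 :=
  (⟨fun x => open Classical in if x = (m : OnePoint ℕ) then v else 0, by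
    classical
    apply Continuous.if _ continuous_const continuous_const
    intro a ha
    have hcl : IsClopen {x : OnePoint ℕ | x = (m : OnePoint ℕ)} := by
      constructor
      · exact isClosed_singleton
      · have : {x : OnePoint ℕ | x = (m : OnePoint ℕ)} = (fun n : ℕ => (n : OnePoint ℕ)) '' {m} := by
          ext x; simp
        rw [this]
        exact OnePoint.isOpenEmbedding_coe.isOpenMap _ (isOpen_discrete _)
    rw [hcl.frontier_eq] at ha
    exact absurd ha (notMem_empty a)⟩ : C(OnePoint ℕ, L 𝕜))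

theorem ev_sgl_self (m : ℕ) (v : L 𝕜) : ev m (sgl m v) = v := if_pos rfl

theorem ev_sgl_ne {m : ℕ} (v : L 𝕜) {x : OnePoint ℕ} (h : x ≠ m) : ev x (sgl m v) = 0 := if_neg h

/-- The constant functions. -/
noncomputable def cst (v : L 𝕜) : CL 𝕜 := ContinuousMap.const (OnePoint ℕ) v

theorem ev_cst (x : OnePoint ℕ) (v : L 𝕜) : ev x (cst v) = v := rfl

variable (𝕜)

/-- The functions whose value at `∞` is in the sum of the blocks. -/
def YCs : Submodule 𝕜 (CL 𝕜) where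
  carrier := {f | ev OnePoint.infty f ∈ YS 𝕜}
  add_mem' := fun ha hb => (YS 𝕜).add_mem ha hb
  zero_mem' := (YS 𝕜).zero_mem
  smul_mem' := fun c _ ha => (YS 𝕜).smul_mem c ha

/-- The range space `Y`. -/
def YC : Type u := YCs 𝕜

noncomputable instance : NormedAddCommGroup (YC 𝕜) := inferInstanceAs (NormedAddCommGroup (YCs 𝕜))
noncomputable instance : NormedSpace 𝕜 (YC 𝕜) := inferInstanceAs (NormedSpace 𝕜 (YCs 𝕜))

theorem isClosed_YCs : IsClosed (YCs 𝕜 : Set (CL 𝕜)) :=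
  isClosed_YS.preimage (evL (OnePoint.infty : OnePoint ℕ)).continuous

instance : CompleteSpace (YC 𝕜) := (isClosed_YCs 𝕜).completeSpace_coe

variable {𝕜}

/-- The inclusion. -/
noncomputable def inc (f : YC 𝕜) : CL 𝕜 := (show YCs 𝕜 from f).1

theorem inc_add (f g : YC 𝕜) : inc (f + g) = inc f + inc g := rfl
theorem inc_smul (c : 𝕜) (f : YC 𝕜) : inc (c • f) = c • inc f := rfl
theorem inc_zero : inc (0 : YC 𝕜) = 0 := rfl
theorem inc_norm (f : YC 𝕜) : ‖inc f‖ = ‖f‖ := rfl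
theorem inc_inj {f g : YC 𝕜} (h : inc f = inc g) : f = g := Subtype.ext h
theorem inc_mem (f : YC 𝕜) : ev OnePoint.infty (inc f) ∈ YS 𝕜 := (show YCs 𝕜 from f).2

/-- Constructor. -/
noncomputable def mk (f : CL 𝕜) (h : ev OnePoint.infty f ∈ YS 𝕜) : YC 𝕜 := (⟨f, h⟩ : YCs 𝕜)

theorem inc_mk (f : CL 𝕜) (h : ev OnePoint.infty f ∈ YS 𝕜) : inc (mk f h) = f := rfl

/-- The coordinates. -/
noncomputable def cf (j : ℕ × ℕ × Fin 3) : YC 𝕜 →L[𝕜] 𝕜 :=
  LinearMap.mkContinuous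
    { toFun := fun f => bl j.2.1 (ev j.1 (inc f)) j.2.2
      map_add' := fun _ _ => rfl
      map_smul' := fun _ _ => rfl } 1 (fun f => by
        rw [one_mul]
        exact (norm_le_pi_norm _ j.2.2).trans ((bl_le _ _).trans (ev_le _ (inc f))))

theorem cf_apply (j : ℕ × ℕ × Fin 3) (f : YC 𝕜) : cf j f = bl j.2.1 (ev j.1 (inc f)) j.2.2 := rfl

/-- The unit vectors. -/
noncomputable def uv (j : ℕ × ℕ × Fin 3) : YC 𝕜 :=
  mk (sgl j.1 (sg j.2.1 (Pi.single j.2.2 (1 : 𝕜)))) (by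
    rw [ev_sgl_ne _ (OnePoint.infty_ne_coe j.1)]
    exact (YS 𝕜).zero_mem)

theorem isCoord : IsCoord (𝕜 := 𝕜) (cf (𝕜 := 𝕜)) uv where
  le_of w c hc h := by
    rw [← inc_norm]
    refine le_of_ev_nat _ hc fun m => le_of_bl _ hc fun k => ?_
    rw [pi_norm_le_iff_of_nonneg hc]
    exact fun i => h (m, k, i)
  cf_le j w := (norm_le_pi_norm _ j.2.2).trans ((bl_le _ _).trans (ev_le _ (inc w)))
  self j := by
    rw [cf_apply, uv, inc_mk, ev_sgl_self, bl_sg_self, Pi.single_eq_same]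
  ne j j' h := by
    rw [cf_apply, uv, inc_mk]
    by_cases h1 : j'.1 = j.1
    · rw [h1, ev_sgl_self]
      by_cases h2 : j'.2.1 = j.2.1
      · rw [h2, bl_sg_self]
        have h3 : j'.2.2 ≠ j.2.2 := fun h3 => h (Prod.ext h1 (Prod.ext h2 h3))
        rw [Pi.single_eq_of_ne h3]
      · rw [bl_sg_ne _ h2]; rfl
    · rw [ev_sgl_ne _ (fun h4 => h1 (OnePoint.coe_injective h4)), bl_zero]; rfl

variable (𝕜)

/-- The subspace `Y₁` of the constant functions. -/
def YK : Submodule 𝕜 (YC 𝕜) where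
  carrier := {f | ∀ x, ev x (inc f) = ev OnePoint.infty (inc f)}
  add_mem' := by
    intro a b ha hb x
    rw [inc_add, ev_add, ev_add, ha x, hb x]
  zero_mem' := fun x => rfl
  smul_mem' := by
    intro c a ha x
    rw [inc_smul, ev_smul, ev_smul, ha x]

variable {𝕜}

/-- The projection onto the constant functions. -/
noncomputable def PK : YC 𝕜 →L[𝕜] YC 𝕜 :=
  LinearMap.mkContinuous
    { toFun := fun f => mk (cst (ev OnePoint.infty (inc f))) (inc_mem f)
      map_add' := fun _ _ => rfl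
      map_smul' := fun _ _ => rfl } 1 (fun f => by
        rw [one_mul, ← inc_norm, ← inc_norm]
        exact le_of_ev _ (norm_nonneg _) fun x => ev_le _ (inc f))

theorem PK_apply (f : YC 𝕜) (x : OnePoint ℕ) :
    ev x (inc (PK f)) = ev OnePoint.infty (inc f) := rfl

theorem PK_mem (f : YC 𝕜) : PK f ∈ YK 𝕜 := fun _ => rfl

theorem PK_eq {f : YC 𝕜} (hf : f ∈ YK 𝕜) : PK f = f :=
  inc_inj (ext_ev fun x => by rw [PK_apply]; exact (hf x).symm)

theorem isClosed_YK : IsClosed (YK 𝕜 : Set (YC 𝕜)) := by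
  have h : (YK 𝕜 : Set (YC 𝕜)) = {f | PK f = f} := by
    ext f
    exact ⟨fun hf => PK_eq hf, fun hf => by
      have : PK f = f := hf
      rw [← this]; exact PK_mem f⟩
  rw [h]
  exact isClosed_eq PK.continuous continuous_id

/-- Coordinates of the constant functions. -/
noncomputable def evK (k : ℕ) : YK 𝕜 →L[𝕜] (Fin 3 → 𝕜) :=
  LinearMap.mkContinuous
    { toFun := fun f => bl k (ev OnePoint.infty (inc (f : YC 𝕜)))
      map_add' := fun _ _ => rfl
      map_smul' := fun _ _ => rfl } 1 (fun f => by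
        rw [one_mul]
        exact (bl_le _ _).trans (ev_le _ (inc (f : YC 𝕜))))

theorem sg_mem (k : ℕ) (v : VV 𝕜 (sk k)) : sg k (v : Fin 3 → 𝕜) ∈ YS 𝕜 := by
  intro j
  by_cases h : j = k
  · subst h; rw [bl_sg_self]; exact v.2
  · rw [bl_sg_ne _ h]; exact (VV 𝕜 (sk j)).zero_mem

/-- The constant function of a block, as an element of `Y₁`. -/
noncomputable def ins (k : ℕ) (v : VV 𝕜 (sk k)) : YK 𝕜 :=
  ⟨mk (cst (sg k (v : Fin 3 → 𝕜))) (sg_mem k v), fun _ => rfl⟩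

theorem ev_ins (k : ℕ) (v : VV 𝕜 (sk k)) (x : OnePoint ℕ) :
    ev x (inc (ins k v : YC 𝕜)) = sg k (v : Fin 3 → 𝕜) := rfl

/-- The insertion of the blocks. -/
noncomputable def injK (k : ℕ) : VV 𝕜 (sk k) →L[𝕜] YK 𝕜 :=
  LinearMap.mkContinuous
    { toFun := ins k
      map_add' := fun v w => by
        apply Subtype.ext
        apply inc_inj
        apply ext_ev
        intro x
        change sg k ((v : Fin 3 → 𝕜) + (w : Fin 3 → 𝕜)) = sg k (v : Fin 3 → 𝕜) + sg k (w : Fin 3 → 𝕜)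
        exact sg_add k _ _
      map_smul' := fun c v => by
        apply Subtype.ext
        apply inc_inj
        apply ext_ev
        intro x
        change sg k (c • (v : Fin 3 → 𝕜)) = c • sg k (v : Fin 3 → 𝕜)
        exact sg_smul k _ _ } 1 (fun v => by
        rw [one_mul]
        change ‖(ins k v : YC 𝕜)‖ ≤ _
        rw [← inc_norm]
        exact le_of_ev _ (norm_nonneg _) fun x => norm_sg_le k _)

theorem isSum_YK : IsSum (𝕜 := 𝕜) (Y := YK 𝕜) evK injK where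
  le_of w c hc h := by
    change ‖(w : YC 𝕜)‖ ≤ c
    rw [← inc_norm]
    refine le_of_ev _ hc fun x => ?_
    rw [w.2 x]
    exact le_of_bl _ hc h
  ev_le k w := (bl_le _ _).trans (ev_le _ (inc (w : YC 𝕜)))
  ev_mem k w := inc_mem (w : YC 𝕜) k
  ev_self k v := bl_sg_self k _
  ev_ne k j v h := bl_sg_ne _ h

end spaceC

/-- **Negative answer to Q2**: over every scalar field `𝕜 = ℝ, ℂ` there are Banach spaces `X`
(finite-dimensional) and `Y` and a closed subspace `Y₁` of `Y`, the range of a linear projection of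
norm one, such that the pair `(X, Y)` has the Bishop-Phelps-Bollobas property and the pair
`(X, Y₁)` does not. -/
theorem result (𝕜 : Type u) [RCLike 𝕜] :
    ∃ (X : Type u) (_ : NormedAddCommGroup X) (_ : NormedSpace 𝕜 X) (_ : CompleteSpace X)
      (Y : Type u) (_ : NormedAddCommGroup Y) (_ : NormedSpace 𝕜 Y) (_ : CompleteSpace Y)
      (Y₁ : Submodule 𝕜 Y),
      FiniteDimensional 𝕜 X ∧ IsClosed (Y₁ : Set Y) ∧
      (∃ P : Y →L[𝕜] Y, ‖P‖ = 1 ∧ (∀ y, P (P y) = P y) ∧ ∀ y, y ∈ Y₁ ↔ ∃ z, P z = y) ∧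
      BPBp 𝕜 X Y ∧ ¬ BPBp 𝕜 X Y₁ := by
  have : CompleteSpace (X1 𝕜) := FiniteDimensional.complete 𝕜 (X1 𝕜)
  refine ⟨X1 𝕜, inferInstance, inferInstance, inferInstance, YC 𝕜, inferInstance, inferInstance,
    inferInstance, YK 𝕜, inferInstance, isClosed_YK, ⟨PK, ?_, fun y => PK_eq (PK_mem y),
      fun y => ⟨fun hy => ⟨y, PK_eq hy⟩, ?_⟩⟩, bpbp_of_isCoord isCoord (X1 𝕜),
      not_bpbp_of_isL1 isL1_X1 isSum_YK⟩
  · apply le_antisymm
    · exact LinearMap.mkContinuous_norm_le _ zero_le_one _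
    · -- a nonzero fixed vector
      obtain ⟨v, hv⟩ : ∃ v : VV 𝕜 (sk 0), v ≠ 0 := by
        refine ⟨⟨![0, 1, 1], ?_⟩, fun h => ?_⟩
        · rw [mem_VV]; simp
        · have := congrArg (fun q : VV 𝕜 (sk 0) => (q : Fin 3 → 𝕜) 1) h
          simp at this
      have hf : PK (ins 0 v : YC 𝕜) = (ins 0 v : YC 𝕜) := PK_eq (ins 0 v).2
      have hne : (ins 0 v : YC 𝕜) ≠ 0 := by
        intro h
        have h3 := bl_sg_self 0 (v : Fin 3 → 𝕜)
        rw [← ev_ins 0 v OnePoint.infty, h, inc_zero, ev_zero, bl_zero] at h3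
        exact hv (Subtype.ext h3.symm)
      have hpos : 0 < ‖(ins 0 v : YC 𝕜)‖ := norm_pos_iff.2 hne
      have h4 := (PK (𝕜 := 𝕜)).le_opNorm (ins 0 v : YC 𝕜)
      rw [hf] at h4
      by_contra h5
      push Not at h5
      nlinarith
  · rintro ⟨z, rfl⟩
    exact PK_mem z

end Pool.Agent.Results.MP_7aa09c_an.BPBpRange
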